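import Pool.Agent.Work.MP_aee03d_pr.Tail

/-!
# Random sorting networks: bounded mean for the two extreme particles

`n = m + 1` particles and `N = (m + 1) m / 2` steps, as in the frozen statement.
-/

namespace Pool.Agent.Results.MP_aee03d_pr.ExtremeMean

/-- The positions of the particles after the first `k` steps of the word `s`. -/
def P (m : ℕ) (s : Fin ((m + 1) * m / 2) → Fin m) (k : ℕ) : Equiv.Perm (Fin (m + 1)) :=
  ((List.ofFn (fun i : Fin ((m + 1) * m / 2) =>
    Equiv.swap (s i).castSucc (s i).succ)).take k).reverse.prod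

/-- The rotated pair of the scaled positions of the particle `j` at the times `t`, `t + 1 / 2`. -/
noncomputable def Z (m : ℕ) (s : Fin ((m + 1) * m / 2) → Fin m) (j : Fin (m + 1)) (t : ℝ) : ℂ :=
  Complex.exp (Real.pi * Complex.I * t) *
    ((((2 * ((P m s ⌊(((m + 1) * m / 2 : ℕ) : ℝ) * t⌋₊ j).val : ℝ) - m) / (m + 1) : ℝ) : ℂ)
      + Complex.I *
        (((2 * ((P m s ⌊(((m + 1) * m / 2 : ℕ) : ℝ) * (t + 1 / 2)⌋₊ j).val : ℝ) - m)
          / (m + 1) : ℝ) : ℂ))

/-- `n` times the variance of `Z` over uniform time. -/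
noncomputable def V (m : ℕ) (s : Fin ((m + 1) * m / 2) → Fin m) (j : Fin (m + 1)) : ℝ :=
  ((m : ℝ) + 1) * (2 * (∫ t in (0 : ℝ)..(1 / 2), ‖Z m s j t‖ ^ 2)
    - ‖2 * ∫ t in (0 : ℝ)..(1 / 2), Z m s j t‖ ^ 2)

open Classical in
/-- The sorting networks. -/
noncomputable def Net (m : ℕ) : Finset (Fin ((m + 1) * m / 2) → Fin m) :=
  Finset.univ.filter (fun s => ∀ j, P m s ((m + 1) * m / 2) j = Fin.rev j)

theorem result (m : ℕ) (j : Fin (m + 1)) (hj : j = 0 ∨ j = Fin.last m) :
    ∑ s ∈ Net m, V m s j ≤ 2500 * (Net m).card := by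
  rcases hj with rfl | rfl
  · exact Pool.Agent.SortNet.mean_zero m
  · exact Pool.Agent.SortNet.mean_last m

end Pool.Agent.Results.MP_aee03d_pr.ExtremeMean
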