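import Pool.Agent.Work.MP_aee03d_pr.Tail

/-!
# Random sorting networks: exact first two moments of the passage times of particle `0`

`n = m + 1` particles and `N = (m + 1) m / 2` steps, as in the frozen statement.  `T m s p` is the
time at which the particle `0` reaches the position `p`.  Its first two moments over the uniform
random sorting network are given by the discrete arcsine law `mu m`.
-/

namespace Pool.Agent.Results.MP_aee03d_pr.PassageMoments

/-- The positions of the particles after the first `k` steps of the word `s`. -/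
def P (m : ℕ) (s : Fin ((m + 1) * m / 2) → Fin m) (k : ℕ) : Equiv.Perm (Fin (m + 1)) :=
  ((List.ofFn (fun i : Fin ((m + 1) * m / 2) =>
    Equiv.swap (s i).castSucc (s i).succ)).take k).reverse.prod

open Classical in
/-- The sorting networks. -/
noncomputable def Net (m : ℕ) : Finset (Fin ((m + 1) * m / 2) → Fin m) :=
  Finset.univ.filter (fun s => ∀ j, P m s ((m + 1) * m / 2) j = Fin.rev j)

/-- The number of the times `k = 0, ..., N` at which the particle `0` is to the left of the
position `p`. -/
def T (m : ℕ) (s : Fin ((m + 1) * m / 2) → Fin m) (p : ℕ) : ℕ :=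
  ((Finset.range ((m + 1) * m / 2 + 1)).filter (fun k => (P m s k 0).val < p)).card

/-- The discrete arcsine law on `{0, ..., m}`. -/
def mu (m c : ℕ) : ℚ :=
  (Nat.choose (2 * c) c : ℚ) * (Nat.choose (2 * (m - c)) (m - c) : ℚ) / 4 ^ m

theorem mu_eq {m c : ℕ} (hc : c ≤ m) : mu m c = Pool.Agent.SortNet.mm (m + 1) c := by
  unfold mu Pool.Agent.SortNet.mm Pool.Agent.SortNet.be
  have h1 : m + 1 - 1 - c = m - c := by omega
  rw [h1, Nat.centralBinom_eq_two_mul_choose, Nat.centralBinom_eq_two_mul_choose]
  have h2 : (4 : ℚ) ^ m = 4 ^ c * 4 ^ (m - c) := by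
    rw [← pow_add]
    congr 1
    omega
  rw [h2]
  field_simp

theorem result (m p : ℕ) (hp1 : 1 ≤ p) (hp : p ≤ m) :
    (∀ s ∈ Net m, ∀ k, (P m s k 0).val < p ↔ k < T m s p) ∧
    ∑ s ∈ Net m, (T m s p : ℚ) =
      (((m + 1) * m / 2 : ℕ) + 1) * (∑ c ∈ Finset.range p, mu m c) * (Net m).card ∧
    ∑ s ∈ Net m, (T m s p : ℚ) * (T m s p + 1) =
      (((m + 1) * m / 2 : ℕ) + 1) * (((m + 1) * m / 2 : ℕ) + 2) * (1 / (2 * m + 1) +
        (∑ c ∈ Finset.range p, mu m c) ^ 2 -
        ∑ c ∈ Finset.range p, ∑ c' ∈ Finset.range p,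
          mu m c * mu m c' / (1 - 4 * ((c : ℚ) - c') ^ 2)) * (Net m).card := by
  have e1 : ∑ c ∈ Finset.range p, mu m c = Pool.Agent.SortNet.tau (m + 1) p := by
    unfold Pool.Agent.SortNet.tau
    refine Finset.sum_congr rfl fun c hc => ?_
    rw [Finset.mem_range] at hc
    exact mu_eq (by omega)
  have e2 : ∑ c ∈ Finset.range p, ∑ c' ∈ Finset.range p,
      mu m c * mu m c' / (1 - 4 * ((c : ℚ) - c') ^ 2) = Pool.Agent.SortNet.Kp (m + 1) p := by
    unfold Pool.Agent.SortNet.Kp
    refine Finset.sum_congr rfl fun c hc => Finset.sum_congr rfl fun c' hc' => ?_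
    rw [Finset.mem_range] at hc hc'
    rw [mu_eq (by omega), mu_eq (by omega)]
  refine ⟨?_, ?_, ?_⟩
  · intro s hs k
    rcases Nat.lt_or_ge ((m + 1) * m / 2) k with hk | hk
    · have h1 : Pool.Agent.SortNet.PP m s k 0 =
          Pool.Agent.SortNet.PP m s ((m + 1) * m / 2) 0 := by
        unfold Pool.Agent.SortNet.PP
        rw [List.take_of_length_le (by rw [List.length_ofFn]; omega),
          List.take_of_length_le (by rw [List.length_ofFn])]
      have h2 := Pool.Agent.SortNet.PP_last (m := m) (s := s) hs 0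
      have h3 := (Pool.Agent.SortNet.lt_Tm_iff (m := m) (s := s) hs
        (k := (m + 1) * m / 2) (p := p) le_rfl)
      rw [h2, Fin.val_zero] at h3
      have h4 : ¬ (m - 0 < p) := by omega
      have h5 : ¬ ((m + 1) * m / 2 < Pool.Agent.SortNet.Tm m s p) := fun h => h4 (h3.2 h)
      show (Pool.Agent.SortNet.PP m s k 0).val < p ↔ k < Pool.Agent.SortNet.Tm m s p
      rw [h1, h2, Fin.val_zero]
      constructor
      · intro h
        omega
      · intro h
        omega
    · exact Pool.Agent.SortNet.lt_Tm_iff (m := m) (s := s) hs hk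
  · rw [e1]
    exact Pool.Agent.SortNet.sum_Tm (by omega)
  · rw [e1, e2]
    have h := Pool.Agent.SortNet.sum_Tm_sq (m := m) hp1 (by omega : p ≤ m + 1)
    have hV : (Pool.Agent.SortNet.Val m).card = (Net m).card := rfl
    refine Eq.trans h ?_
    rw [hV]
    ring

end Pool.Agent.Results.MP_aee03d_pr.PassageMoments
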